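import Pool.Agent.helper15.P2.SpecA2
import Pool.Agent.helper76.P2.STA2

/-! Project P2 (MP_063734_an), row ALV: change of the level. -/

set_option autoImplicit false

open scoped ContDiff Topology
open MeasureTheory Filter Set Metric MvPolynomial Pool.Agent.helper37.QA

namespace Pool.Agent.P2A

open Pool.Agent.P2

theorem ALV_hol {Z : ℂ → E3} (hZ : DifferentiableOn ℂ Z (ball 0 1)) : ContDiffOn ℝ ∞ Z (ball 0 1) := by
  intro z hz
  exact (((hZ.analyticAt (isOpen_ball.mem_nhds hz)).contDiffAt (n := ∞)).restrict_scalars ℝ).contDiffWithinAt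

theorem ALV_comp {U : Set (PP 2)} {Ψ : E3 → ℝ} (hΨ : ContDiffOn ℝ ∞ Ψ (cone U)) {Z : ℂ → E3} (hZ : Dsc U Z) :
    ContDiffOn ℝ ∞ (fun z => Ψ (Z z)) (ball 0 1) :=
  hΨ.comp (ALV_hol hZ.1) fun z hz => hZ.2 z hz

theorem ALV_ne {d : ℕ} (f : Endo 2 d) (j : ℕ) {U : Set (PP 2)} {Z : ℂ → E3} (hZ : Dsc U Z) :
    ∀ z ∈ ball (0 : ℂ) 1, It f j (Z z) ≠ 0 := fun z hz => pmap_ne (iter_nd f.nondeg j) (hZ.2 z hz).1

/-- the density of the `j`-th term -/
theorem ALV_lapj (hMSS : MSS_stmt) {d : ℕ} (f : Endo 2 d) (U : Set (PP 2)) (hd : 2 ≤ d) (hU : Good0 f U) (N : ℕ)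
    (hA : ∀ j ≤ N, ContDiffOn ℝ ∞ (psj f j N) (cone U)) {Z : ℂ → E3} (hZ : Dsc U Z) (j : ℕ) {z : ℂ} (hz : z ∈ ball (0 : ℂ) 1) :
    lap (fun z => psj f j N (Z z)) z = ar (fun z => It f j (Z z)) z - (d : ℝ) ^ j * tau f N Z z := by
  have hmem : ball (0 : ℂ) 1 ∈ 𝓝 z := isOpen_ball.mem_nhds hz
  have g : ∀ i : ℕ, ContDiffAt ℝ 2 (fun z => (1 / 2) * Real.log (nq (It f i (Z z)))) z := fun i =>
    (DMS_nq (DMS_It f i hZ.1) (ALV_ne f i hZ)).contDiffAt hmem
  have h0 : ContDiffAt ℝ 2 (fun z => psj f 0 N (Z z)) z :=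
    ((ALV_comp (hA 0 (Nat.zero_le N)) hZ).contDiffAt hmem).of_le ENat.LEInfty.out
  have hu : ContDiffAt ℝ 2 (fun z => un f N (Z z)) z := by
    have h1 := (g 0).sub h0
    have h2 : (fun z => (1 / 2) * Real.log (nq (It f 0 (Z z))) - psj f 0 N (Z z)) = fun z => un f N (Z z) := by
      funext w
      unfold psj
      rw [pow_zero]
      ring
    rw [h2] at h1
    exact h1
  have e : (fun z => psj f j N (Z z)) = fun z => 1 * ((1 / 2) * Real.log (nq (It f j (Z z)))) + (-(d : ℝ) ^ j) * un f N (Z z) := by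
    funext w
    unfold psj
    ring
  rw [e, STA_lap_lin (g j) hu 1 (-(d : ℝ) ^ j), (hMSS d f U hd hU Z hZ N).1 z hz,
    DMS_ar (DMS_It f j hZ.1) (ALV_ne f j hZ) z hz]
  ring

/-- the density of the sum -/
theorem ALV_lapn (hMSS : MSS_stmt) {d : ℕ} (f : Endo 2 d) (U : Set (PP 2)) (hd : 2 ≤ d) (hU : Good0 f U) (N : ℕ)
    (hA : ∀ j ≤ N, ContDiffOn ℝ ∞ (psj f j N) (cone U)) {Z : ℂ → E3} (hZ : Dsc U Z) {z : ℂ} (hz : z ∈ ball (0 : ℂ) 1) :
    ∀ n ≤ N + 1, ContDiffAt ℝ 2 (fun z => psn f n N (Z z)) z ∧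
      lap (fun z => psn f n N (Z z)) z = ∑ j ∈ Finset.range n, (ar (fun z => It f j (Z z)) z - (d : ℝ) ^ j * tau f N Z z) := by
  have hmem : ball (0 : ℂ) 1 ∈ 𝓝 z := isOpen_ball.mem_nhds hz
  intro n
  induction n with
  | zero =>
    intro _
    have e : (fun z => psn f 0 N (Z z)) = fun _ => (0 : ℝ) := by
      funext w
      unfold psn
      simp
    rw [e]
    refine ⟨contDiffAt_const, ?_⟩
    rw [STA_lap_zero (Eventually.of_forall fun _ => rfl)]
    simp
  | succ n ih =>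
    intro hn
    obtain ⟨h1, h2⟩ := ih (by omega)
    have h3 : ContDiffAt ℝ 2 (fun z => psj f n N (Z z)) z :=
      ((ALV_comp (hA n (by omega)) hZ).contDiffAt hmem).of_le ENat.LEInfty.out
    have e : (fun z => psn f (n + 1) N (Z z)) = fun z => 1 * psn f n N (Z z) + 1 * psj f n N (Z z) := by
      funext w
      unfold psn
      rw [Finset.sum_range_succ]
      ring
    constructor
    · rw [e]
      exact (contDiffAt_const.mul h1).add (contDiffAt_const.mul h3)
    · rw [e, STA_lap_lin h1 h3 1 1, h2, ALV_lapj hMSS f U hd hU N hA hZ n hz, Finset.sum_range_succ]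
      ring

/-- geometric sum -/
theorem ALV_geo (d n : ℕ) (hd : 2 ≤ d) : (∑ j ∈ Finset.range n, (d : ℝ) ^ j) ≤ (d : ℝ) ^ n := by
  have hd2 : (2 : ℝ) ≤ d := by exact_mod_cast hd
  induction n with
  | zero => simp
  | succ n ih =>
    rw [Finset.sum_range_succ, pow_succ]
    have : 0 < (d : ℝ) ^ n := by positivity
    nlinarith

theorem ALV_lin (d n : ℕ) (hd : 2 ≤ d) : (n : ℝ) + 1 ≤ (d : ℝ) ^ n := by
  have hd2 : (2 : ℝ) ≤ d := by exact_mod_cast hd
  induction n with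
  | zero => simp
  | succ n ih =>
    rw [pow_succ]
    push_cast
    have : 0 ≤ (n : ℝ) := Nat.cast_nonneg n
    nlinarith

theorem ALV_int {κ h : ℂ → ℝ} (hκ : ContDiff ℝ ∞ κ) (hs : tsupport κ ⊆ ball 0 1) (hh : ContinuousOn h (ball 0 1)) :
    Integrable (fun z => κ z * h z) :=
  MSS_integrable isOpen_ball hκ.continuous hs (IsCompact.of_isClosed_subset (isCompact_closedBall (0 : ℂ) 1) (isClosed_tsupport _)
      (hs.trans ball_subset_closedBall)) hh

/-- row ALV -/
theorem ALV (hUN1 : UN1_stmt) (hCHN : CHN_stmt) (hLSE : LSE_stmt) (hMSS : MSS_stmt) (hAPS : APS_stmt) (hALB : ALB_stmt) :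
    ALV_stmt := by
  intro d f U hd hU
  obtain ⟨C1, hC1, hun, -, hpos, -⟩ := hUN1 d f U hd hU
  obtain ⟨C2, hC2, hAj, -, hAn⟩ := hAPS d f U hd hU
  obtain ⟨C3, hC3, hB⟩ := hALB
  obtain ⟨hη, hηs⟩ := DMS_eta
  obtain ⟨hκ, hκs, hκc⟩ := DMS_lap (hη.of_le ENat.LEInfty.out) hηs
  have hηc : HasCompactSupport (fun z : ℂ => eta z ^ 2) :=
    IsCompact.of_isClosed_subset (isCompact_closedBall (0 : ℂ) 1) (isClosed_tsupport _)
      (hηs.trans ball_subset_closedBall)
  set K0 : ℝ := ∫ z, |lap (fun z : ℂ => eta z ^ 2) z| with hK0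
  have hK : 0 ≤ K0 := integral_nonneg fun z => abs_nonneg _
  have hd2 : (2 : ℝ) ≤ d := by exact_mod_cast hd
  refine ⟨2 + 2 * (K0 * C1) + C1 * C3 * (C2 + K0 * C2) + 4 * (C1 * C3) + C1 + C2 * (K0 * C1), ?_, ?_⟩
  · have : 0 ≤ K0 * C1 := by positivity
    have : 0 ≤ C1 * C3 * (C2 + K0 * C2) := by positivity
    have : 0 ≤ C1 * C3 := by positivity
    have : 0 ≤ C2 * (K0 * C1) := by positivity
    linarith
  intro n N Z hn hZ hm
  have hcU : ∀ z ∈ ball (0 : ℂ) 1, Z z ∈ cone (closure U) := fun z hz => DMS_cone subset_closure (hZ.2 z hz)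
  have hE : ∀ M : ℕ, (mass f M Z = ∫ z, lap (fun z : ℂ => eta z ^ 2) z * un f M (Z z)) := fun M =>
    (hMSS d f U hd hU Z hZ M).2 _ hη hηs
  have hcont : ∀ M : ℕ, ContinuousOn (fun z => un f M (Z z)) (ball 0 1) :=
    fun M => DMS_un f U M (fun W hW => (hpos M W hW).1) hZ
  have htc : ∀ M : ℕ, ContinuousOn (tau f M Z) (ball 0 1) :=
    fun M => STA_tau_cont f U M (fun W hW => (hpos M W hW).1) hZ
  have hdN : 0 < (d : ℝ) ^ N := by positivity
  -- the difference of the potentials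
  have hv : ∀ z ∈ ball (0 : ℂ) 1, |un f (N + 1) (Z z) - un f N (Z z)| ≤ C1 / (d : ℝ) ^ N := fun z hz =>
    hun N (N + 1) (Nat.le_succ N) (Z z) (hcU z hz)
  have hm1 : |mass f (N + 1) Z - mass f N Z| ≤ K0 * (C1 / (d : ℝ) ^ N) := by
    rw [hE, hE]
    exact DMS_diff hκ hκs hκc (hcont _) (hcont _) _ hv
  -- smoothness
  have hsm : ContDiffOn ℝ ∞ (fun z => psn f n N (Z z)) (ball 0 1) := ALV_comp (hAn n N hn).1.1 hZ
  have hbd : ∀ z ∈ ball (0 : ℂ) 1, |psn f n N (Z z)| ≤ C2 * (n + 1) := fun z hz => (hAn n N hn).1.2.1 _ (hZ.2 z hz)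
  have hjs : ∀ j ≤ N, ContDiffOn ℝ ∞ (psj f j N) (cone U) := fun j hj => (hAj j N hj).1
  have hjb : ∀ j ≤ N, ∀ z ∈ ball (0 : ℂ) 1, |psj f j N (Z z)| ≤ C2 := fun j hj z hz => (hAj j N hj).2.1 _ (hZ.2 z hz)
  have harc : ∀ j : ℕ, ContinuousOn (ar (fun z => It f j (Z z))) (ball 0 1) := fun j =>
    STA_ar_cont (DMS_It f j hZ.1) (ALV_ne f j hZ)
  -- masses of the terms
  have hmj : ∀ j ≤ N, (∫ z, eta z ^ 2 * ar (fun z => It f j (Z z)) z) ≤ K0 * C2 + (d : ℝ) ^ j * mass f N Z := by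
    intro j hj
    have e1 : (∫ z, eta z ^ 2 * ar (fun z => It f j (Z z)) z) =
        (∫ z, eta z ^ 2 * lap (fun z => psj f j N (Z z)) z) + (d : ℝ) ^ j * mass f N Z := by
      unfold mass
      rw [← integral_const_mul, ← integral_add]
      · refine integral_congr_ae (Eventually.of_forall fun z => ?_)
        change eta z ^ 2 * ar (fun z => It f j (Z z)) z = eta z ^ 2 * lap (fun z => psj f j N (Z z)) z +
          (d : ℝ) ^ j * (eta z ^ 2 * tau f N Z z)
        by_cases hz : z ∈ ball (0 : ℂ) 1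
        · rw [ALV_lapj hMSS f U hd hU N hjs hZ j hz]
          ring
        · rw [STA_eta_zero hz]
          ring
      · have h1 : Integrable (fun z => eta z ^ 2 * (ar (fun z => It f j (Z z)) z - (d : ℝ) ^ j * tau f N Z z)) :=
          ALV_int hη hηs ((harc j).sub (continuousOn_const.mul (htc N)))
        refine h1.congr (Eventually.of_forall fun z => ?_)
        change eta z ^ 2 * (ar (fun z => It f j (Z z)) z - (d : ℝ) ^ j * tau f N Z z) =
          eta z ^ 2 * lap (fun z => psj f j N (Z z)) z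
        by_cases hz : z ∈ ball (0 : ℂ) 1
        · rw [ALV_lapj hMSS f U hd hU N hjs hZ j hz]
        · rw [STA_eta_zero hz]
          ring
      · exact (ALV_int hη hηs (htc N)).const_mul _
    have e2 : (∫ z, eta z ^ 2 * lap (fun z => psj f j N (Z z)) z) =
        ∫ z, lap (fun z : ℂ => eta z ^ 2) z * psj f j N (Z z) :=
      MSS_green isOpen_ball (hη.of_le ENat.LEInfty.out) hηs hηc
        ((ALV_comp (hjs j hj) hZ).of_le ENat.LEInfty.out)
    have e3 : (∫ z, lap (fun z : ℂ => eta z ^ 2) z * psj f j N (Z z)) ≤ K0 * C2 := by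
      have h1 := DMS_diff (g := fun z => psj f j N (Z z)) (h := fun _ => (0 : ℝ)) hκ hκs hκc
        (ALV_comp (hjs j hj) hZ).continuousOn continuousOn_const C2 (by
          intro z hz
          rw [sub_zero]
          exact hjb j hj z hz)
      simp only [mul_zero, integral_zero, sub_zero] at h1
      exact (le_abs_self _).trans h1
    rw [e1, e2]
    linarith
  -- the integral of the Laplacian
  have hS : (∑ j ∈ Finset.range n, (d : ℝ) ^ j) ≤ (d : ℝ) ^ n := ALV_geo d n hd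
  have hS0 : 0 ≤ ∑ j ∈ Finset.range n, (d : ℝ) ^ j := Finset.sum_nonneg fun j _ => by positivity
  set S : ℝ := ∑ j ∈ Finset.range n, (d : ℝ) ^ j with hSdef
  have hM : (∫ z, eta z ^ 2 * |lap (fun z => psn f n N (Z z)) z|) ≤ n * (K0 * C2) + 2 * (S * mass f N Z) := by
    have h1 : ∀ j : ℕ, Integrable (fun z => eta z ^ 2 * (ar (fun z => It f j (Z z)) z + (d : ℝ) ^ j * tau f N Z z)) :=
      fun j => ALV_int hη hηs ((harc j).add (continuousOn_const.mul (htc N)))
    have h2 : (∫ z, eta z ^ 2 * |lap (fun z => psn f n N (Z z)) z|) ≤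
        ∫ z, ∑ j ∈ Finset.range n, eta z ^ 2 * (ar (fun z => It f j (Z z)) z + (d : ℝ) ^ j * tau f N Z z) := by
      refine integral_mono_of_nonneg (Eventually.of_forall fun z => by positivity)
        (integrable_finsetSum _ fun j _ => h1 j) (Eventually.of_forall fun z => ?_)
      change eta z ^ 2 * |lap (fun z => psn f n N (Z z)) z| ≤
        ∑ j ∈ Finset.range n, eta z ^ 2 * (ar (fun z => It f j (Z z)) z + (d : ℝ) ^ j * tau f N Z z)
      by_cases hz : z ∈ ball (0 : ℂ) 1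
      · rw [(ALV_lapn hMSS f U hd hU N hjs hZ hz n (by omega)).2, ← Finset.mul_sum]
        refine mul_le_mul_of_nonneg_left ?_ (sq_nonneg _)
        refine (Finset.abs_sum_le_sum_abs _ _).trans (Finset.sum_le_sum fun j _ => ?_)
        have a1 := STA_ar_nonneg (fun z => It f j (Z z)) z
        have a2 := STA_tau_nonneg f N Z z
        have a3 : 0 ≤ (d : ℝ) ^ j * tau f N Z z := by positivity
        rw [abs_le]
        constructor <;> linarith
      · rw [STA_eta_zero hz]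
        simp
    refine h2.trans ?_
    rw [integral_finsetSum _ fun j _ => h1 j]
    have h3 : ∀ j ∈ Finset.range n, (∫ z, eta z ^ 2 * (ar (fun z => It f j (Z z)) z + (d : ℝ) ^ j * tau f N Z z)) ≤
        K0 * C2 + (d : ℝ) ^ j * (2 * mass f N Z) := by
      intro j hj
      have hjN : j ≤ N := by
        have := Finset.mem_range.1 hj
        omega
      have e1 : (∫ z, eta z ^ 2 * (ar (fun z => It f j (Z z)) z + (d : ℝ) ^ j * tau f N Z z)) =
          (∫ z, eta z ^ 2 * ar (fun z => It f j (Z z)) z) + (d : ℝ) ^ j * mass f N Z := by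
        unfold mass
        rw [← integral_const_mul, ← integral_add (ALV_int hη hηs (harc j)) ((ALV_int hη hηs (htc N)).const_mul _)]
        refine integral_congr_ae (Eventually.of_forall fun z => ?_)
        change eta z ^ 2 * (ar (fun z => It f j (Z z)) z + (d : ℝ) ^ j * tau f N Z z) =
          eta z ^ 2 * ar (fun z => It f j (Z z)) z + (d : ℝ) ^ j * (eta z ^ 2 * tau f N Z z)
        ring
      rw [e1]
      linarith [hmj j hjN]
    refine (Finset.sum_le_sum h3).trans (le_of_eq ?_)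
    have e5 : (∑ j ∈ Finset.range n, (d : ℝ) ^ j * (2 * mass f N Z)) = S * (2 * mass f N Z) := by
      rw [hSdef, Finset.sum_mul]
    rw [Finset.sum_add_distrib, e5, Finset.sum_const, Finset.card_range, nsmul_eq_mul]
    ring
  have hL := hB (fun z => psn f n N (Z z)) (C2 * (n + 1)) (n * (K0 * C2) + 2 * (S * mass f N Z)) hsm
    (by positivity) hbd hM
  -- the function `χ = η² Ψ`
  have hχs : tsupport (fun z => eta z ^ 2 * psn f n N (Z z)) ⊆ ball 0 1 := by
    have h : (fun z => eta z ^ 2 * psn f n N (Z z)) = (fun z => eta z ^ 2) * fun z => psn f n N (Z z) := rfl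
    rw [h]
    exact tsupport_mul_subset_left.trans hηs
  have hχ : ContDiff ℝ ∞ (fun z => eta z ^ 2 * psn f n N (Z z)) := by
    rw [contDiff_iff_contDiffAt]
    intro z
    by_cases hz : z ∈ tsupport (fun z => eta z ^ 2 * psn f n N (Z z))
    · exact hη.contDiffAt.mul (hsm.contDiffAt (isOpen_ball.mem_nhds (hχs hz)))
    · exact contDiffAt_const.congr_of_eventuallyEq (notMem_tsupport_iff_eventuallyEq.1 hz)
  obtain ⟨hl1, hl2, hl3⟩ := DMS_lap (hχ.of_le ENat.LEInfty.out) hχs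
  have hI1 : |(∫ z, eta z ^ 2 * psn f n N (Z z) * tau f (N + 1) Z z) - ∫ z, eta z ^ 2 * psn f n N (Z z) * tau f N Z z| ≤
      C3 * (C2 * (n + 1) + (n * (K0 * C2) + 2 * (S * mass f N Z))) * (C1 / (d : ℝ) ^ N) := by
    rw [(hMSS d f U hd hU Z hZ (N + 1)).2 _ hχ hχs, (hMSS d f U hd hU Z hZ N).2 _ hχ hχs]
    refine (DMS_diff hl1 hl2 hl3 (hcont _) (hcont _) _ hv).trans ?_
    exact mul_le_mul_of_nonneg_right hL (by positivity)
  -- the other difference
  have hI2 : |∫ z, eta z ^ 2 * ((un f (N + 1) (Z z) - un f N (Z z)) * tau f (N + 1) Z z)| ≤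
      C1 / (d : ℝ) ^ N * mass f (N + 1) Z := by
    unfold mass
    rw [← integral_const_mul, ← Real.norm_eq_abs]
    refine norm_integral_le_of_norm_le ((ALV_int hη hηs (htc (N + 1))).const_mul _) (Eventually.of_forall fun z => ?_)
    rw [Real.norm_eq_abs]
    by_cases hz : z ∈ ball (0 : ℂ) 1
    · have a2 := STA_tau_nonneg f (N + 1) Z z
      rw [abs_mul, abs_mul, abs_of_nonneg (sq_nonneg (eta z)), abs_of_nonneg a2]
      have := mul_le_mul_of_nonneg_right (hv z hz) (mul_nonneg (sq_nonneg (eta z)) a2)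
      linarith
    · rw [STA_eta_zero hz]
      simp
  -- the numerators
  have hnum : (∫ z, eta z ^ 2 * (psn f n (N + 1) (Z z) * tau f (N + 1) Z z)) =
      (∫ z, eta z ^ 2 * psn f n N (Z z) * tau f (N + 1) Z z) -
        S * ∫ z, eta z ^ 2 * ((un f (N + 1) (Z z) - un f N (Z z)) * tau f (N + 1) Z z) := by
    rw [← integral_const_mul, ← integral_sub]
    · refine integral_congr_ae (Eventually.of_forall fun z => ?_)
      change eta z ^ 2 * (psn f n (N + 1) (Z z) * tau f (N + 1) Z z) = eta z ^ 2 * psn f n N (Z z) * tau f (N + 1) Z z -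
        S * (eta z ^ 2 * ((un f (N + 1) (Z z) - un f N (Z z)) * tau f (N + 1) Z z))
      have e : psn f n (N + 1) (Z z) = psn f n N (Z z) - S * (un f (N + 1) (Z z) - un f N (Z z)) := by
        unfold psn psj
        rw [Finset.sum_sub_distrib, Finset.sum_sub_distrib, ← Finset.sum_mul, ← Finset.sum_mul, ← hSdef]
        ring
      rw [e]
      ring
    · have h1 : Integrable (fun z => eta z ^ 2 * (psn f n N (Z z) * tau f (N + 1) Z z)) :=
        ALV_int hη hηs (hsm.continuousOn.mul (htc (N + 1)))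
      simpa only [mul_assoc] using h1
    · exact (ALV_int hη hηs (((hcont (N + 1)).sub (hcont N)).mul (htc (N + 1)))).const_mul _
  have hnum0 : (∫ z, eta z ^ 2 * (psn f n N (Z z) * tau f N Z z)) = ∫ z, eta z ^ 2 * psn f n N (Z z) * tau f N Z z := by
    refine integral_congr_ae (Eventually.of_forall fun z => ?_)
    change eta z ^ 2 * (psn f n N (Z z) * tau f N Z z) = eta z ^ 2 * psn f n N (Z z) * tau f N Z z
    ring
  have hI0 : |∫ z, eta z ^ 2 * psn f n N (Z z) * tau f N Z z| ≤ C2 * (n + 1) * mass f N Z := by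
    unfold mass
    rw [← integral_const_mul, ← Real.norm_eq_abs]
    refine norm_integral_le_of_norm_le ((ALV_int hη hηs (htc N)).const_mul _) (Eventually.of_forall fun z => ?_)
    rw [Real.norm_eq_abs]
    by_cases hz : z ∈ ball (0 : ℂ) 1
    · have a2 := STA_tau_nonneg f N Z z
      rw [abs_mul, abs_mul, abs_of_nonneg (sq_nonneg (eta z)), abs_of_nonneg a2]
      have := mul_le_mul_of_nonneg_right (hbd z hz) (mul_nonneg (sq_nonneg (eta z)) a2)
      linarith
    · rw [STA_eta_zero hz]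
      simp
  unfold Jf
  rw [hnum, hnum0]
  set I0 : ℝ := ∫ z, eta z ^ 2 * psn f n N (Z z) * tau f N Z z with hI0d
  set I1 : ℝ := ∫ z, eta z ^ 2 * psn f n N (Z z) * tau f (N + 1) Z z with hI1d
  set I2 : ℝ := ∫ z, eta z ^ 2 * ((un f (N + 1) (Z z) - un f N (Z z)) * tau f (N + 1) Z z) with hI2d
  set m : ℝ := mass f N Z with hmd
  set m' : ℝ := mass f (N + 1) Z with hmd'
  have hnN : (d : ℝ) ^ n ≤ (d : ℝ) ^ N := pow_le_pow_right₀ (by linarith) hn
  have hlin : (n : ℝ) + 1 ≤ (d : ℝ) ^ N := (ALV_lin d n hd).trans hnN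
  have hSN : S ≤ (d : ℝ) ^ N := hS.trans hnN
  have hn0 : (0 : ℝ) ≤ n := Nat.cast_nonneg n
  have hq0 : 0 ≤ C1 / (d : ℝ) ^ N := by positivity
  have hDq : (d : ℝ) ^ N * (C1 / (d : ℝ) ^ N) = C1 := by field_simp
  set q : ℝ := C1 / (d : ℝ) ^ N with hqd
  have q1 : ((n : ℝ) + 1) * q ≤ C1 := (mul_le_mul_of_nonneg_right hlin hq0).trans hDq.le
  have q2 : S * q ≤ C1 := (mul_le_mul_of_nonneg_right hSN hq0).trans hDq.le
  have q3 : (n : ℝ) * q ≤ C1 := by nlinarith
  have q4 : q ≤ C1 := by nlinarith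
  have k1 : 0 ≤ K0 * C1 := by positivity
  have k2 : 0 ≤ C1 * C3 * (C2 + K0 * C2) := by positivity
  have k3 : 0 ≤ C1 * C3 := by positivity
  have k4 : 0 ≤ C2 * (K0 * C1) := by positivity
  have m1 : 2 ≤ m := by linarith
  have m2 : K0 * q ≤ K0 * C1 := mul_le_mul_of_nonneg_left q4 hK
  have m3 : m ≤ 2 * m' := by
    have := (abs_le.1 hm1).1
    linarith
  have m4 : 1 ≤ m' := by linarith
  have b1 : C3 * (C2 * (n + 1) + (n * (K0 * C2) + 2 * (S * m))) * q ≤ C1 * C3 * (C2 + K0 * C2) + 2 * (C1 * C3) * m := by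
    have e1 : C3 * (C2 * (n + 1) + (n * (K0 * C2) + 2 * (S * m))) * q =
        C3 * C2 * (((n : ℝ) + 1) * q) + C3 * (K0 * C2) * (n * q) + 2 * C3 * m * (S * q) := by ring
    rw [e1]
    have a1 : C3 * C2 * (((n : ℝ) + 1) * q) ≤ C3 * C2 * C1 := mul_le_mul_of_nonneg_left q1 (by positivity)
    have a2 : C3 * (K0 * C2) * (n * q) ≤ C3 * (K0 * C2) * C1 := mul_le_mul_of_nonneg_left q3 (by positivity)
    have a3 : 2 * C3 * m * (S * q) ≤ 2 * C3 * m * C1 := mul_le_mul_of_nonneg_left q2 (by positivity)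
    linarith
  have b2 : |S * I2| ≤ C1 * m' := by
    rw [abs_mul, abs_of_nonneg hS0]
    have a1 : S * |I2| ≤ S * (q * m') := mul_le_mul_of_nonneg_left hI2 hS0
    have a2 : S * q * m' ≤ C1 * m' := mul_le_mul_of_nonneg_right q2 (by linarith)
    linarith
  have b3 : I0 * (m' - m) ≤ C2 * (K0 * C1) * m := by
    have a1 : |I0 * (m' - m)| ≤ (C2 * (n + 1) * m) * (K0 * q) := by
      rw [abs_mul]
      exact mul_le_mul hI0 hm1 (abs_nonneg _) (by positivity)
    have a2 : (C2 * (n + 1) * m) * (K0 * q) = (C2 * m * K0) * (((n : ℝ) + 1) * q) := by ring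
    have a3 : (C2 * m * K0) * (((n : ℝ) + 1) * q) ≤ (C2 * m * K0) * C1 := mul_le_mul_of_nonneg_left q1 (by positivity)
    have a4 := le_abs_self (I0 * (m' - m))
    linarith
  have b4 := (abs_le.1 hI1).1
  have b5 := le_abs_self (S * I2)
  have b6 : I0 - (I1 - S * I2) ≤ C1 * C3 * (C2 + K0 * C2) + 2 * (C1 * C3) * m + C1 * m' := by linarith
  have b7 : (I0 - (I1 - S * I2)) * m ≤ (C1 * C3 * (C2 + K0 * C2) + 2 * (C1 * C3) * m + C1 * m') * m :=
    mul_le_mul_of_nonneg_right b6 (by linarith)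
  have b8 : C2 * (K0 * C1) + (C1 * C3 * (C2 + K0 * C2) + 2 * (C1 * C3) * m + C1 * m') ≤
      (2 + 2 * (K0 * C1) + C1 * C3 * (C2 + K0 * C2) + 4 * (C1 * C3) + C1 + C2 * (K0 * C1)) * m' := by
    have a1 : C2 * (K0 * C1) ≤ C2 * (K0 * C1) * m' := le_mul_of_one_le_right k4 m4
    have a2 : C1 * C3 * (C2 + K0 * C2) ≤ C1 * C3 * (C2 + K0 * C2) * m' := le_mul_of_one_le_right k2 m4
    have a3 : 2 * (C1 * C3) * m ≤ 2 * (C1 * C3) * (2 * m') := mul_le_mul_of_nonneg_left m3 (by positivity)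
    have a4 : 0 ≤ 2 * m' := by linarith
    have a5 : 0 ≤ 2 * (K0 * C1) * m' := by positivity
    linarith
  have b9 := mul_le_mul_of_nonneg_right b8 (show 0 ≤ m by linarith)
  rw [div_add' _ _ _ (show m' ≠ 0 by linarith), div_le_div_iff₀ (by linarith) (by linarith)]
  linarith

end Pool.Agent.P2A
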