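import Pool.Agent.helper15.P2.SpecN
import Pool.Agent.helper80.P2.LGW

/-!
# Row p2:LGX
-/

set_option autoImplicit false

open scoped ContDiff Topology ComplexConjugate
open MeasureTheory Filter Set Metric

namespace Pool.Agent.P2N

open Pool.Agent.P2 Pool.Agent.P2I

theorem LGX_W2 {P Q : ℂ → ℂ} {E : ℝ} (hA : P2I.Adm P Q) (hE : 1 ≤ E)
    (hU : ∀ z ∈ ball (0 : ℂ) 1, |Up P Q z| ≤ E) : ∀ z ∈ ball (0 : ℂ) (99 / 100), ‖Wr P Q z‖ ≤ Real.exp (8 * E) := by
  have hexp2 : (200 : ℝ) ≤ Real.exp (6 * E) := by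
    have h1 := Real.exp_one_gt_d9
    have h2 : Real.exp 6 = Real.exp 1 ^ 6 := by rw [← Real.exp_nat_mul]; norm_num
    have h3 : Real.exp 6 ≤ Real.exp (6 * E) := Real.exp_le_exp.2 (by linarith)
    have h4 : (2.7 : ℝ) ^ 6 ≤ Real.exp 1 ^ 6 := by gcongr; linarith
    norm_num at h4
    linarith
  intro z hz
  rw [mem_ball_zero_iff] at hz
  have h1 := LGW_W hA hU (z := z) (δ := 1 / 100) (by norm_num) (by linarith)
  have h2 : Real.exp (8 * E) = Real.exp (6 * E) * Real.exp (2 * E) := by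
    rw [← Real.exp_add]; congr 1; ring
  rw [h2]
  refine h1.trans ?_
  have h3 := Real.exp_pos (2 * E)
  nlinarith

theorem LGX_step (hLGA : LGA_stmt) {P Q : ℂ → ℂ} {E : ℝ} (hA : P2I.Adm P Q) (hE : 1 ≤ E)
    (hU : ∀ z ∈ ball (0 : ℂ) 1, |Up P Q z| ≤ E) {z0 : ℂ} {K s : ℝ} (hK : 1 ≤ K) (hs : s ≤ 4 / 5) (hz0n : ‖z0‖ < s)
    (hWz0ne : Wr P Q z0 ≠ 0) (hlog : |Real.log ‖Wr P Q z0‖| ≤ K * E) :
    ∃ z1 : ℂ, ‖z1‖ < max (s - 14 / 100) (2 / 100) ∧ Wr P Q z1 ≠ 0 ∧ |Real.log ‖Wr P Q z1‖| ≤ (6000 * K) * E := by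
  have hWd := LGW_Wd hA
  have hW2 := LGX_W2 hA hE hU
  have hz01 : z0 ∈ ball (0 : ℂ) 1 := by
    rw [mem_ball_zero_iff]
    linarith
  have hsub1 : ball z0 (19 / 100) ⊆ ball (0 : ℂ) (99 / 100) := by
    apply ball_subset_ball'
    rw [dist_zero_right]
    linarith
  have hI1 := hLGA (Wr P Q) z0 (18 / 100) (19 / 100) (8 * E) (by norm_num) (by norm_num)
    (by linarith) (hWd.mono (hsub1.trans (ball_subset_ball (by norm_num))))
    (fun z hz => hW2 z (hsub1 hz)) hWz0ne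
  -- the small ball
  obtain ⟨y, hyn, hysub⟩ : ∃ y : ℂ, ‖y‖ + 1 / 100 < max (s - 14 / 100) (2 / 100) ∧ ball y (1 / 100) ⊆ ball z0 (18 / 100) := by
    by_cases h : ‖z0‖ < 15 / 100
    · refine ⟨0, ?_, ball_subset_ball' ?_⟩
      · rw [norm_zero]
        exact lt_of_lt_of_le (by norm_num) (le_max_right _ _)
      · rw [dist_comm, dist_zero_right]
        linarith
    · push Not at h
      have hpos : 0 < ‖z0‖ := by linarith
      have hq0 : 0 ≤ 1 - 15 / 100 / ‖z0‖ := by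
        rw [sub_nonneg, div_le_one hpos]
        exact h
      refine ⟨((1 - 15 / 100 / ‖z0‖ : ℝ) : ℂ) * z0, ?_, ball_subset_ball' ?_⟩
      · rw [norm_mul, Complex.norm_real, Real.norm_of_nonneg hq0, sub_mul,
          div_mul_cancel₀ _ hpos.ne']
        refine lt_of_lt_of_le ?_ (le_max_left _ _)
        linarith
      · rw [dist_comm, dist_eq_norm]
        have h1 : z0 - ((1 - 15 / 100 / ‖z0‖ : ℝ) : ℂ) * z0 = ((15 / 100 / ‖z0‖ : ℝ) : ℂ) * z0 := by
          push_cast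
          ring
        rw [h1, norm_mul, Complex.norm_real, Real.norm_of_nonneg (by positivity),
          div_mul_cancel₀ _ hpos.ne']
        norm_num
  have hysub1 : ball y (1 / 100) ⊆ ball (0 : ℂ) 1 :=
    hysub.trans ((ball_subset_ball (by norm_num)).trans (hsub1.trans (ball_subset_ball (by norm_num))))
  have hz1 : ∃ z1 ∈ ball y (1 / 100), Wr P Q z1 ≠ 0 ∧ |Real.log ‖Wr P Q z1‖| ≤ (6000 * K) * E := by
    by_contra hcon
    push Not at hcon
    have hae : ∀ᵐ z ∂(volume.restrict (ball (0 : ℂ) 1)), Wr P Q z ≠ 0 := by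
      have h1 := (hWd.analyticOnNhd isOpen_ball).preimage_zero_mem_codiscreteWithin hWz0ne hz01
        ((convex_ball (0 : ℂ) 1).isConnected ⟨0, mem_ball_self one_pos⟩)
      exact ae_restrict_le_codiscreteWithin measurableSet_ball h1
    have h2 : ∫⁻ z in ball y (1 / 100), ENNReal.ofReal ((6000 * K) * E) ≤
        ∫⁻ z in ball y (1 / 100), ENNReal.ofReal |Real.log ‖Wr P Q z‖| := by
      refine lintegral_mono_ae ?_
      have h3 := ae_restrict_of_ae_restrict_of_subset hysub1 hae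
      filter_upwards [h3, ae_restrict_mem measurableSet_ball] with z hz hzb
      exact ENNReal.ofReal_le_ofReal (hcon z hzb hz).le
    have h4 : ∫⁻ z in ball y (1 / 100), ENNReal.ofReal |Real.log ‖Wr P Q z‖| ≤
        ENNReal.ofReal (Real.pi * (18 / 100) ^ 2 * (2 * (8 * E) - Real.log ‖Wr P Q z0‖)) :=
      (lintegral_mono_set hysub).trans hI1
    have h5 := h2.trans h4
    rw [setLIntegral_const, Complex.volume_ball] at h5
    have hKE : 1 ≤ K * E := by nlinarith
    have h6 : ENNReal.ofReal ((6000 * K) * E) * (ENNReal.ofReal (1 / 100) ^ 2 * NNReal.pi) =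
        ENNReal.ofReal ((6000 * K) * E * ((1 / 100) ^ 2 * Real.pi)) := by
      have hE0 : 0 ≤ (6000 * K) * E := by nlinarith
      rw [ENNReal.ofReal_mul hE0, ENNReal.ofReal_mul (p := (1 / 100) ^ 2) (by positivity),
        ENNReal.ofReal_pow (by norm_num)]
      congr 2
      exact (ENNReal.ofReal_coe_nnreal (p := NNReal.pi)).symm
    have hpi := Real.pi_pos
    have hl := (abs_le.1 hlog).1
    rw [h6, ENNReal.ofReal_le_ofReal_iff] at h5
    · have h7 : Real.pi * (18 / 100) ^ 2 * (2 * (8 * E) - Real.log ‖Wr P Q z0‖) ≤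
          Real.pi * (18 / 100) ^ 2 * (17 * (K * E)) := by
        apply mul_le_mul_of_nonneg_left _ (by positivity)
        nlinarith
      have h8 : 0 < Real.pi * (K * E) := mul_pos hpi (by linarith)
      nlinarith
    · have h9 : 0 ≤ 2 * (8 * E) - Real.log ‖Wr P Q z0‖ := by
        have h10 : Real.log ‖Wr P Q z0‖ ≤ 8 * E := by
          rw [Real.log_le_iff_le_exp (norm_pos_iff.2 hWz0ne)]
          apply hW2
          rw [mem_ball_zero_iff]
          linarith
        linarith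
      positivity
  obtain ⟨z1, hz1b, hWz1, hlogz1⟩ := hz1
  refine ⟨z1, ?_, hWz1, hlogz1⟩
  rw [mem_ball, dist_eq_norm] at hz1b
  have h1 : ‖z1‖ ≤ ‖y‖ + ‖z1 - y‖ := by
    calc ‖z1‖ = ‖y + (z1 - y)‖ := by congr 1; ring
      _ ≤ _ := norm_add_le _ _
  linarith

theorem LGX (hLGA : LGA_stmt) : LGX_stmt := by
  refine ⟨3.15 * (86 / 100) ^ 2 * (12 + 8 * 6000 ^ 6), by norm_num, ?_⟩
  intro P Q E hA hE hU hmass
  have hWd := LGW_Wd hA
  have hexp1 : (40 : ℝ) ≤ Real.exp (4 * E) := by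
    have h1 := Real.exp_one_gt_d9
    have h2 : Real.exp 4 = Real.exp 1 ^ 4 := by rw [← Real.exp_nat_mul]; norm_num
    have h3 : Real.exp 4 ≤ Real.exp (4 * E) := Real.exp_le_exp.2 (by linarith)
    have h4 : (2.7 : ℝ) ^ 4 ≤ Real.exp 1 ^ 4 := by gcongr; linarith
    norm_num at h4
    linarith
  have hW1 : ∀ z ∈ ball (0 : ℂ) (19 / 20), ‖Wr P Q z‖ ≤ Real.exp (6 * E) := by
    intro z hz
    rw [mem_ball_zero_iff] at hz
    have h1 := LGW_W hA hU (z := z) (δ := 1 / 20) (by norm_num) (by linarith)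
    have h2 : Real.exp (6 * E) = Real.exp (4 * E) * Real.exp (2 * E) := by
      rw [← Real.exp_add]; congr 1; ring
    rw [h2]
    refine h1.trans ?_
    have h3 := Real.exp_pos (2 * E)
    nlinarith
  have hW2 := LGX_W2 hA hE hU
  -- a point with large spherical derivative
  have hz0 : ∃ z0 ∈ ball (0 : ℂ) (4 / 5), 1 ≤ sph P Q z0 := by
    by_contra hcon
    push Not at hcon
    have h1 : ‖∫ z in ball (0 : ℂ) (4 / 5), sph P Q z‖ ≤ 1 * volume.real (ball (0 : ℂ) (4 / 5)) := by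
      refine norm_setIntegral_le_of_norm_le_const measure_ball_lt_top fun z hz => ?_
      have h2 : 0 ≤ sph P Q z := by
        unfold sph
        exact div_nonneg (Complex.normSq_nonneg _) (sq_nonneg _)
      rw [Real.norm_of_nonneg h2]
      exact (hcon z hz).le
    have h3 : volume.real (ball (0 : ℂ) (4 / 5)) = (4 / 5) ^ 2 * Real.pi := by
      rw [Measure.real, Complex.volume_ball, ENNReal.toReal_mul, ENNReal.toReal_pow,
        ENNReal.toReal_ofReal (by norm_num)]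
      simp
    rw [h3] at h1
    have h4 := (le_abs_self _).trans h1
    have h5 := Real.pi_lt_d2
    linarith
  obtain ⟨z0, hz0, hsph⟩ := hz0
  have hz0n : ‖z0‖ < 4 / 5 := by rwa [mem_ball_zero_iff] at hz0
  have hz01 : z0 ∈ ball (0 : ℂ) 1 := by
    rw [mem_ball_zero_iff]
    linarith
  have hWz0 : Real.exp (-(2 * E)) ≤ ‖Wr P Q z0‖ := by
    obtain ⟨-, -, hN⟩ := LGW_bounds hA hU hz01
    refine hN.trans ?_
    have hNp : 0 < Complex.normSq (P z0) + Complex.normSq (Q z0) :=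
      lt_of_lt_of_le (Real.exp_pos _) hN
    unfold sph at hsph
    rw [one_le_div (pow_pos hNp 2), Complex.normSq_eq_norm_sq (Wr P Q z0)] at hsph
    exact le_of_sq_le_sq hsph (norm_nonneg _)
  have hWz0ne : Wr P Q z0 ≠ 0 := norm_pos_iff.1 (lt_of_lt_of_le (Real.exp_pos _) hWz0)
  have hlogz0 : |Real.log ‖Wr P Q z0‖| ≤ 8 * E := by
    rw [abs_le]
    constructor
    · have h1 : -(2 * E) ≤ Real.log ‖Wr P Q z0‖ := by
        rw [Real.le_log_iff_exp_le (norm_pos_iff.2 hWz0ne)]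
        exact hWz0
      linarith
    · rw [Real.log_le_iff_le_exp (norm_pos_iff.2 hWz0ne)]
      apply hW2
      rw [mem_ball_zero_iff]
      linarith
  -- the chain
  obtain ⟨a1, n1, w1, l1⟩ := LGX_step hLGA hA hE hU (K := 8) (s := 4 / 5) (by norm_num) le_rfl hz0n hWz0ne hlogz0
  have n1' : ‖a1‖ < 66 / 100 := lt_of_lt_of_le n1 (max_le (by norm_num) (by norm_num))
  obtain ⟨a2, n2, w2, l2⟩ := LGX_step hLGA hA hE hU (s := 66 / 100) (by norm_num) (by norm_num) n1' w1 l1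
  have n2' : ‖a2‖ < 52 / 100 := lt_of_lt_of_le n2 (max_le (by norm_num) (by norm_num))
  obtain ⟨a3, n3, w3, l3⟩ := LGX_step hLGA hA hE hU (s := 52 / 100) (by norm_num) (by norm_num) n2' w2 l2
  have n3' : ‖a3‖ < 38 / 100 := lt_of_lt_of_le n3 (max_le (by norm_num) (by norm_num))
  obtain ⟨a4, n4, w4, l4⟩ := LGX_step hLGA hA hE hU (s := 38 / 100) (by norm_num) (by norm_num) n3' w3 l3
  have n4' : ‖a4‖ < 24 / 100 := lt_of_lt_of_le n4 (max_le (by norm_num) (by norm_num))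
  obtain ⟨a5, n5, w5, l5⟩ := LGX_step hLGA hA hE hU (s := 24 / 100) (by norm_num) (by norm_num) n4' w4 l4
  have n5' : ‖a5‖ < 10 / 100 := lt_of_lt_of_le n5 (max_le (by norm_num) (by norm_num))
  obtain ⟨z1, n6, hWz1, l6⟩ := LGX_step hLGA hA hE hU (s := 10 / 100) (by norm_num) (by norm_num) n5' w5 l5
  have hz1n : ‖z1‖ < 4 / 100 := lt_of_lt_of_le n6 (max_le (by norm_num) (by norm_num))
  have hlogz1 : |Real.log ‖Wr P Q z1‖| ≤ 8 * 6000 ^ 6 * E := by
    refine l6.trans (le_of_eq ?_)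
    ring
  have hsub2 : ball z1 (9 / 10) ⊆ ball (0 : ℂ) (19 / 20) := by
    apply ball_subset_ball'
    rw [dist_zero_right]
    linarith
  have hI2 := hLGA (Wr P Q) z1 (86 / 100) (9 / 10) (6 * E) (by norm_num) (by norm_num)
    (by linarith) (hWd.mono (hsub2.trans (ball_subset_ball (by norm_num))))
    (fun z hz => hW1 z (hsub2 hz)) hWz1
  have hsub3 : ball (0 : ℂ) (4 / 5) ⊆ ball z1 (86 / 100) := by
    apply ball_subset_ball'
    rw [dist_comm, dist_zero_right]
    linarith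
  have hI3 : ∫⁻ z in ball (0 : ℂ) (4 / 5), ENNReal.ofReal |Real.log ‖Wr P Q z‖| ≤
      ENNReal.ofReal (3.15 * (86 / 100) ^ 2 * (12 + 8 * 6000 ^ 6) * E) := by
    refine ((lintegral_mono_set hsub3).trans hI2).trans (ENNReal.ofReal_le_ofReal ?_)
    have h1 := (abs_le.1 hlogz1).1
    have hpi := Real.pi_lt_d2
    have hpi0 := Real.pi_pos
    have h2 : 2 * (6 * E) - Real.log ‖Wr P Q z1‖ ≤ (12 + 8 * 6000 ^ 6) * E := by linarith
    calc Real.pi * (86 / 100) ^ 2 * (2 * (6 * E) - Real.log ‖Wr P Q z1‖) ≤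
        Real.pi * (86 / 100) ^ 2 * ((12 + 8 * 6000 ^ 6) * E) := by
          apply mul_le_mul_of_nonneg_left h2 (by positivity)
      _ ≤ 3.15 * (86 / 100) ^ 2 * ((12 + 8 * 6000 ^ 6) * E) := by
          gcongr
      _ = _ := by ring
  have hmeas : AEStronglyMeasurable (fun z => Real.log ‖Wr P Q z‖)
      (volume.restrict (ball (0 : ℂ) (4 / 5))) := by
    have h1 : AEStronglyMeasurable (Wr P Q) (volume.restrict (ball (0 : ℂ) (4 / 5))) :=
      (hWd.continuousOn.mono (ball_subset_ball (by norm_num))).aestronglyMeasurable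
        measurableSet_ball
    exact (Real.measurable_log.comp_aemeasurable h1.norm.aemeasurable).aestronglyMeasurable
  have hint : IntegrableOn (fun z => Real.log ‖Wr P Q z‖) (ball (0 : ℂ) (4 / 5)) := by
    refine ⟨hmeas, ?_⟩
    rw [hasFiniteIntegral_iff_norm]
    simp only [Real.norm_eq_abs]
    exact lt_of_le_of_lt hI3 ENNReal.ofReal_lt_top
  refine ⟨hW1, hint, ?_⟩
  have habs : ∫ z in ball (0 : ℂ) (4 / 5), |Real.log ‖Wr P Q z‖| =
      (∫⁻ z in ball (0 : ℂ) (4 / 5), ENNReal.ofReal |Real.log ‖Wr P Q z‖|).toReal :=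
    integral_eq_lintegral_of_nonneg_ae (Eventually.of_forall fun z => abs_nonneg _)
      (continuous_abs.comp_aestronglyMeasurable hmeas)
  rw [habs]
  exact ENNReal.toReal_le_of_le_ofReal (by positivity) hI3

end Pool.Agent.P2N
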