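import Pool.Agent.helper83.P2.SpecV
import Pool.Agent.helper60.P2.DCOa

/-! Project P2 (MP_063734_an), row VLC: the local version of the two sided inequality, in the tube of a graph. -/

set_option autoImplicit false

open scoped ContDiff Topology
open MeasureTheory Filter Set Metric MvPolynomial Pool.Agent.helper37.QA Pool.Agent.P2

namespace Pool.Agent.P2V

theorem VLC_fd (G : ℂ × ℂ → ℂ) (v ξ a b : ℂ) :
    fderiv ℂ (fun p : ℂ × ℂ => G (p.2, p.1)) (v, ξ) (a, b) = fderiv ℂ G (ξ, v) (b, a) := by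
  have h := (ContinuousLinearEquiv.prodComm ℂ ℂ ℂ).comp_right_fderiv (f := G) (x := (v, ξ))
  have e : (G ∘ (ContinuousLinearEquiv.prodComm ℂ ℂ ℂ)) = fun p : ℂ × ℂ => G (p.2, p.1) := rfl
  rw [e] at h
  rw [h]
  rfl

theorem VLC_fneg {F : Type*} [NormedAddCommGroup F] [NormedSpace ℝ F] (f : ℂ → F) (x : ℂ) :
    fderiv ℝ (fun t => f (-t)) x = -(fderiv ℝ f (-x)) := by
  have h := (ContinuousLinearEquiv.neg ℝ (M := ℂ)).comp_right_fderiv (f := f) (x := x)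
  have e : (f ∘ (ContinuousLinearEquiv.neg ℝ (M := ℂ))) = fun t => f (-t) := rfl
  rw [e] at h
  rw [h]
  ext v
  simp

theorem VLC_lapneg (h : ℂ → ℝ) : lap (fun t => h (-t)) 0 = lap h 0 := by
  unfold lap
  have key : ∀ a b : ℂ, iteratedFDeriv ℝ 2 (fun t => h (-t)) 0 ![a, b] = iteratedFDeriv ℝ 2 h 0 ![a, b] := by
    intro a b
    rw [iteratedFDeriv_two_apply, iteratedFDeriv_two_apply]
    have e1 : fderiv ℝ (fun t => h (-t)) = fun t => -(fderiv ℝ h (-t)) := by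
      funext t
      exact VLC_fneg h t
    have e2 : fderiv ℝ (fun t => -(fderiv ℝ h (-t))) 0 = fderiv ℝ (fderiv ℝ h) 0 := by
      rw [fderiv_fun_neg, VLC_fneg (fderiv ℝ h) 0, neg_neg, neg_zero]
    rw [e1, e2]
  rw [key, key]

theorem VLC_levneg (g : ℂ × ℂ → ℝ) (p a : ℂ × ℂ) : lev g p (-a) = lev g p a := by
  unfold lev
  rw [← VLC_lapneg (fun t => g (p + t • a))]
  simp only [smul_neg, neg_smul]

theorem VLC_levswap (Θ : ℂ × ℂ → ℝ) (v ξ a b : ℂ) :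
    lev (fun p : ℂ × ℂ => Θ (p.2, p.1)) (v, ξ) (-a, b) = lev Θ (ξ, v) (-b, a) := by
  have e : ((-b, a) : ℂ × ℂ) = -(b, -a) := by simp
  rw [e, VLC_levneg]
  rfl

theorem VLC_gp {ι : Fin 2} {c : ℂ} {κ : ℝ} {γ : ℂ → ℂ} (hγ : DifferentiableOn ℂ γ (ball 0 1)) :
    DifferentiableOn ℂ (gp ι c κ γ) (ball 0 1 ×ˢ univ) := by
  have hx : DifferentiableOn ℂ (fun p : ℂ × ℂ => c + κ * p.1) (ball 0 1 ×ˢ univ) :=
    (differentiableOn_const c).add ((differentiableOn_const _).mul differentiableOn_fst)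
  have hy : DifferentiableOn ℂ (fun p : ℂ × ℂ => γ p.1 + p.2) (ball 0 1 ×ˢ univ) :=
    (hγ.comp differentiableOn_fst fun p hp => hp.1).add differentiableOn_snd
  have h1 : DifferentiableOn ℂ (fun _ : ℂ × ℂ => (1 : ℂ)) (ball 0 1 ×ˢ univ) := differentiableOn_const 1
  refine differentiableOn_pi.2 fun i => ?_
  fin_cases ι <;> fin_cases i
  · exact h1
  · exact hx
  · exact hy
  · exact hx
  · exact h1
  · exact hy

theorem VLC_norm (ι : Fin 2) (c : ℂ) (κ : ℝ) (γ : ℂ → ℂ) (ξ v v' : ℂ) :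
    ‖gp ι c κ γ (ξ, v) - gp ι c κ γ (ξ, v')‖ ≤ ‖v - v'‖ ∧ 1 ≤ ‖gp ι c κ γ (ξ, v)‖ := by
  constructor
  · rw [pi_norm_le_iff_of_nonneg (norm_nonneg _)]
    intro i
    fin_cases ι <;> fin_cases i <;> simp [gp, cht]
  · fin_cases ι
    · have h := norm_le_pi_norm (gp 0 c κ γ (ξ, v)) 0
      simpa [gp, cht] using h
    · have h := norm_le_pi_norm (gp 1 c κ γ (ξ, v)) 1
      simpa [gp, cht] using h

theorem VLC_supp : tsupport eta ⊆ ball 0 (9 / 10) := by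
  have h1 : tsupport eta ⊆ closedBall 0 (4 / 5) := by
    apply closure_minimal _ isClosed_closedBall
    intro z hz
    rw [mem_closedBall_zero_iff]
    by_contra hc
    push Not at hc
    apply hz
    have h2 : Complex.normSq z = ‖z‖ ^ 2 := Complex.normSq_eq_norm_sq z
    unfold eta
    apply Real.smoothTransition.zero_of_nonpos
    rw [h2]
    nlinarith
  exact h1.trans (closedBall_subset_ball (by norm_num))

/-- row VLC -/
theorem VLC (hUN1 : UN1_stmt) (hUNH : UNH_stmt) (hVC2 : VC2_stmt) (hVJA : VJA_stmt) : VLC_stmt := by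
  intro d f U hd hU
  obtain ⟨Cu, hCu, hun1, hun2, hpos, hun3⟩ := hUN1 d f U hd hU
  obtain ⟨C0, α, hC0, hα, hα1, hH⟩ := hUNH d f U hd hU
  obtain ⟨CJ, hCJ, hJ⟩ := hVJA d f U hd hU
  obtain ⟨C1, hC1, hV⟩ := hVC2 C0 α CJ (9 / 10) hC0 hα hα1 (by linarith) (by norm_num) eta DCO_eta_cd VLC_supp
  refine ⟨2 * C1 + 1, α / 2, by linarith, by linarith, by linarith, ?_⟩
  intro r δ κ B K N ι c γ Θ hr hr1 hδ hδr hK hκ hκ1 hc hB hγ hT hΘ hΘB
  have hd0 : 0 < (d : ℝ) ^ N := by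
    have : 0 < (d : ℝ) := by
      have : 0 < d := by omega
      exact_mod_cast this
    positivity
  have hsub : cone U ⊆ cone (closure U) := by
    rintro x ⟨hx, hxU⟩
    exact ⟨hx, subset_closure hxU⟩
  obtain ⟨-, -, hJ1, -⟩ := hJ N (4 * r) κ ι c γ (by linarith) (by linarith) hκ hκ1 hc hγ hT
  have hR : ∀ ξ ∈ ball (0 : ℂ) (9 / 10), ξ ∈ ball (0 : ℂ) 1 := fun ξ hξ => ball_subset_ball (by norm_num) hξ
  have hpr : ∀ k : Fin 3, DifferentiableOn ℂ (fun p : ℂ × ℂ => It f N (gp ι c κ γ (p.2, p.1)) k)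
      (ball 0 (4 * r) ×ˢ ball 0 (9 / 10)) := by
    intro k
    have h1 : DifferentiableOn ℂ (fun p : ℂ × ℂ => gp ι c κ γ (p.2, p.1)) (ball 0 (4 * r) ×ˢ ball 0 (9 / 10)) := by
      refine (VLC_gp hγ).comp (differentiableOn_snd.prodMk differentiableOn_fst) ?_
      rintro ⟨v, ξ⟩ ⟨-, hξ⟩
      exact ⟨hR ξ hξ, mem_univ _⟩
    exact (DCO_Idf f N k).comp_differentiableOn h1
  have hw1 : ∀ v ξ : ℂ, w1 (fun p : ℂ × ℂ => gP f N ι c κ γ (p.2, p.1)) (fun p : ℂ × ℂ => gQ f N ι c κ γ (p.2, p.1)) (v, ξ) =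
      w2 (gP f N ι c κ γ) (gQ f N ι c κ γ) (ξ, v) := by
    intro v ξ
    unfold w1 w2
    rw [VLC_fd, VLC_fd]
  have hw2 : ∀ v ξ : ℂ, w2 (fun p : ℂ × ℂ => gP f N ι c κ γ (p.2, p.1)) (fun p : ℂ × ℂ => gQ f N ι c κ γ (p.2, p.1)) (v, ξ) =
      w1 (gP f N ι c κ γ) (gQ f N ι c κ γ) (ξ, v) := by
    intro v ξ
    unfold w1 w2
    rw [VLC_fd, VLC_fd]
  have hta : ∀ v ξ : ℂ, ta (fun p : ℂ × ℂ => gP f N ι c κ γ (p.2, p.1)) (fun p : ℂ × ℂ => gQ f N ι c κ γ (p.2, p.1)) ((d : ℝ) ^ N) (v, ξ) =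
      gt f N ι c κ γ (ξ, v) := by
    intro v ξ
    unfold ta gt ta1
    rw [hw2]
    rfl
  have h := hV r δ ((d : ℝ) ^ N) 1 B K (fun p : ℂ × ℂ => gP f N ι c κ γ (p.2, p.1)) (fun p : ℂ × ℂ => gQ f N ι c κ γ (p.2, p.1))
    (fun p : ℂ × ℂ => Θ (p.2, p.1)) hr (by linarith) hδ hδr hK hd0 one_pos hB (hpr 0) (hpr 1) ?_ ?_ ?_ ?_ ?_
  · have e1 : ∀ v : ℂ, (1 * ∫ z, eta z ^ 2 * (Θ (z, v) * ta (fun p : ℂ × ℂ => gP f N ι c κ γ (p.2, p.1))
        (fun p : ℂ × ℂ => gQ f N ι c κ γ (p.2, p.1)) ((d : ℝ) ^ N) (v, z))) = Ja f N Θ ι c κ γ v := by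
      intro v
      rw [one_mul]
      unfold Ja
      simp only [hta]
    have e2 : ∀ v : ℂ, (1 * ∫ z, eta z ^ 2 * (lev (fun p : ℂ × ℂ => Θ (p.2, p.1)) (v, z)
        (ev (fun p : ℂ × ℂ => gP f N ι c κ γ (p.2, p.1)) (fun p : ℂ × ℂ => gQ f N ι c κ γ (p.2, p.1)) (v, z)) *
        om (fun p : ℂ × ℂ => gP f N ι c κ γ (p.2, p.1)) (fun p : ℂ × ℂ => gQ f N ι c κ γ (p.2, p.1)) (v, z) / (2 * (d : ℝ) ^ N))) =
        ∫ ξ, eta ξ ^ 2 * Ge f N Θ ι c κ γ (ξ, v) := by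
      intro v
      rw [one_mul]
      unfold Ge P2.ev
      simp only [hw1, hw2, VLC_levswap]
      rfl
    simp only [e1, e2] at h
    refine h.trans ?_
    have a1 : (1 * r ^ α) ^ (1 / 2 : ℝ) = r ^ (α / 2) := by
      rw [one_mul, ← Real.rpow_mul hr.le]
      congr 1
      ring
    have a2 : r ^ α ≤ r ^ (α / 2) := Real.rpow_le_rpow_of_exponent_ge hr (by linarith) (by linarith)
    have a3 : 0 ≤ r ^ (α / 2) := Real.rpow_nonneg hr.le _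
    rw [a1, one_mul]
    have a4 : C1 * B * (r ^ α + r ^ (α / 2)) ≤ C1 * B * (2 * r ^ (α / 2)) :=
      mul_le_mul_of_nonneg_left (by linarith) (by positivity)
    have a5 : 0 ≤ B * r ^ (α / 2) := by positivity
    calc C1 * B * (r ^ α + r ^ (α / 2)) ≤ C1 * B * (2 * r ^ (α / 2)) := a4
      _ ≤ (2 * C1 + 1) * B * r ^ (α / 2) := by linarith
  · rintro ⟨v, ξ⟩ ⟨hv, hξ⟩
    by_contra hcon
    push Not at hcon
    have h1 := (hpos N _ (hsub (hT ξ (hR ξ hξ) v hv))).1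
    have h2 : It f N (gp ι c κ γ (ξ, v)) 0 = 0 := hcon.1
    have h3 : It f N (gp ι c κ γ (ξ, v)) 1 = 0 := hcon.2
    unfold pq at h1
    rw [h2, h3] at h1
    simp at h1
  · intro v hv v' hv' ξ hξ
    have hξ1 := hR ξ hξ
    obtain ⟨n1, n2⟩ := VLC_norm ι c κ γ ξ v v'
    have hvv : ‖v - v'‖ ≤ 1 / 2 := by
      have a1 := mem_ball_zero_iff.1 hv
      have a2 := mem_ball_zero_iff.1 hv'
      have a3 := norm_sub_le v v'
      linarith
    have h1 := hH N _ (hT ξ hξ1 v hv) _ (hT ξ hξ1 v' hv') (by linarith)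
    have h2 : ‖gp ι c κ γ (ξ, v) - gp ι c κ γ (ξ, v')‖ / ‖gp ι c κ γ (ξ, v)‖ ≤ ‖v - v'‖ := by
      rw [div_le_iff₀ (by linarith)]
      have := mul_le_mul_of_nonneg_left n2 (norm_nonneg (v - v'))
      linarith
    have h3 : (‖gp ι c κ γ (ξ, v) - gp ι c κ γ (ξ, v')‖ / ‖gp ι c κ γ (ξ, v)‖) ^ α ≤ ‖v - v'‖ ^ α :=
      Real.rpow_le_rpow (by positivity) h2 hα.le
    exact h1.trans (mul_le_mul_of_nonneg_left h3 hC0.le)
  · intro v hv
    rw [one_mul]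
    have h1 := hJ1 v (ball_subset_ball (by linarith) hv)
    unfold Ja at h1
    simp only [one_mul] at h1
    simp only [hta]
    exact h1
  · refine hΘ.comp (contDiffOn_snd.prodMk contDiffOn_fst) ?_
    rintro ⟨v, ξ⟩ ⟨hv, hξ⟩
    exact ⟨hξ, hv⟩
  · rintro ⟨v, ξ⟩ ⟨hv, hξ⟩
    exact hΘB (ξ, v) ⟨hξ, hv⟩

end Pool.Agent.P2V
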